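import Pool.Agent.N139.WS.Asm
import Pool.Agent.N51.WS.PRJ
import Pool.Agent.N38.WS.NWT
import Pool.Agent.N81.WS.FINW
import Pool.Agent.N143.WS.LIM
import Pool.Agent.N395.WS.GRP
import Pool.Agent.N712.WS.REP
import Pool.Agent.N374.WS.NOEX

set_option autoImplicit false

/-!
# MP_7c14f5_an: matricial stability and weak C*-stability do not pass to overgroups of index two

`H = ⨁_i (D_i × ⟨b_i⟩)`, `D_i` dihedral of order `8` with centre `⟨z_i⟩` and `b_i` of order two, is
a direct sum of finite groups; every finite group is weakly C*-stable (Newton iteration, Johnson)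
and `H` is the union of finite subgroups which are retracts of `H`, so `H` is weakly C*-stable.
`G = H ⋊ ⟨c⟩` with `c b_i c⁻¹ = z_i z_0 b_i` and `c` commuting with all `D_j`. The representation of
`D_0 × ... × D_(n-1)` on the tensor product of `n` copies of `ℂ²`, with `b_i` and `c` acting
trivially, is an asymptotic representation of `G`. A finite-dimensional representation of `G` close
to it would have `c ↦ 1`, hence `z_i z_0 ↦ 1`, and `z_0 ↦ -1`, so `z_i ↦ -1` for all `i`, which is
impossible in finite dimension.
-/

namespace Pool.Agent.Results.MP_7c14f5_an.IndexTwoNotStable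

open Pool.Agent.N139.WS

/-- There are a countable group `G` and a subgroup `H` of index two in `G` such that `H` is weakly
C*-stable (so matricially stable), but `G` is not matricially stable (so not weakly C*-stable). -/
theorem result : ∃ (G : Type) (_ : Group G) (H : Subgroup G), Countable G ∧ H.index = 2 ∧
    WeaklyCStarStable H ∧ MatriciallyStable H ∧ ¬ MatriciallyStable G ∧ ¬ WeaklyCStarStable G :=
  ⟨WG, inferInstance, HH, final_of
    (Pool.Agent.N143.WS.t_LIM
      (Pool.Agent.N81.WS.t_FINW Pool.Agent.N51.WS.t_PRJ Pool.Agent.N38.WS.t_NWT))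
    Pool.Agent.N395.WS.t_GRP Pool.Agent.N712.WS.t_REP Pool.Agent.N374.WS.t_NOEX⟩

end Pool.Agent.Results.MP_7c14f5_an.IndexTwoNotStable
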